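import Pool.Agent.X22.ND3
import Pool.Agent.H126T.Field
import Pool.Agent.H341R2.WeilSharp

/-!
# Nagao's sums for almost all families of hyperelliptic curves over affine space whose coefficients arise from arbitrary
integers by changing a few digits: square-root cancellation

Nothing is used besides Mathlib in the statement.
-/

set_option autoImplicit false

namespace Pool.Agent.Results.MP_1a0ddd_nt.FewDigitPencils

open Finset

/-- The value modulo `p` of `f (x, t) = x ^ n + ∑ m l x ^ i t ^ J`, `E l = (i, J)`, where `t = (t 1, ..., t k)` and `l` runs through the `d`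
monomials. -/
def fiber (p n : ℕ) {k d : ℕ} (E : Fin d → ℕ × (Fin k → ℕ)) (m : Fin d → ℕ) (x : ZMod p) (t : Fin k → ZMod p) : ZMod p :=
  x ^ n + ∑ l, (m l : ZMod p) * (x ^ (E l).1 * ∏ j, t j ^ (E l).2 j)

/-- The trace of Frobenius of the fibre `Y ^ 2 = f (X, t)` at `t` modulo `p`: `p` minus the number of its affine points (for `n` odd there is
one point at infinity). -/
noncomputable def trace (p n : ℕ) {k d : ℕ} (E : Fin d → ℕ × (Fin k → ℕ)) (m : Fin d → ℕ) (t : Fin k → ZMod p) : ℤ :=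
  p - Nat.card {P : ZMod p × ZMod p // P.2 ^ 2 = fiber p n E m P.1 t}

/-- The fibre average `p ^ (-k) ∑ a_p (t)` of the traces over the points `t` of the base `𝔸 ^ k` modulo `p` (`p` prime). -/
noncomputable def average (p n : ℕ) {k d : ℕ} (E : Fin d → ℕ × (Fin k → ℕ)) (m : Fin d → ℕ) : ℝ :=
  (∑ᶠ t : Fin k → ZMod p, (trace p n E m t : ℝ)) / (p : ℝ) ^ k

/-- Nagao's sum with the weights `w`: the sum of `w p · (fibre average at p) · log p` over the odd primes `p ≤ x`. -/
noncomputable def nagao (n : ℕ) {k d : ℕ} (E : Fin d → ℕ × (Fin k → ℕ)) (m : Fin d → ℕ) (w : ℕ → ℂ) (x : ℕ) : ℂ :=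
  ∑ p ∈ (range (x + 1)).filter (fun p => p.Prime ∧ p ≠ 2), w p * ((average p n E m * Real.log p : ℝ) : ℂ)

/-- The digit number `i` (counted from the right, beginning with `0`) of `n` in base `b`. -/
def digit (b i n : ℕ) : ℕ := n / b ^ i % b

/-- The number which arises from the number `N` with at most `K` digits in base `b`, if for every `i ∈ S`
the digit number `i` is replaced by `f i`. -/
def change (b K N : ℕ) (f : ℕ → ℕ) (S : Finset ℕ) : ℕ :=
  ∑ i ∈ range K, (if i ∈ S then f i else digit b i N) * b ^ i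

open Classical in
/-- The number of the choices of `r l` of `K l` positions for all `l < d` for which the vector of the numbers obtained by
changing the digits of the `N l` at the chosen positions (according to `f l`) does not have the property `E`. -/
noncomputable def exceptions {d : ℕ} (b : ℕ) (K r N : Fin d → ℕ) (f : Fin d → ℕ → ℕ) (E : (Fin d → ℕ) → Prop) : ℕ :=
  ((Fintype.piFinset (fun l => powersetCard (r l) (range (K l)))).filter
    (fun S => ¬ E (fun l => change b (K l) (N l) (f l) (S l)))).card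

open Pool.Agent.X22.ND (op mem_op mz_law mean_zmod shift_zero second_moment absorb)
open Pool.Agent.TH894.NE (mean mean_mul)

/-- the linear form -/
def lin (p : ℕ) {k d : ℕ} (E : Fin d → ℕ × (Fin k → ℕ)) (z : ZMod p × (Fin k → ZMod p)) : (Fin d → ZMod p) →ₗ[ZMod p] ZMod p where
  toFun v := ∑ l, v l * (z.1 ^ (E l).1 * ∏ j, z.2 j ^ (E l).2 j)
  map_add' v w := by
    rw [← sum_add_distrib]
    apply sum_congr rfl
    intro l _
    rw [Pi.add_apply]
    ring
  map_smul' c v := by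
    rw [RingHom.id_apply, smul_eq_mul, mul_sum]
    apply sum_congr rfl
    intro l _
    rw [Pi.smul_apply, smul_eq_mul]
    ring

/-- the sum of characters -/
noncomputable def cs (p n : ℕ) (hp : p.Prime) {k d : ℕ} (E : Fin d → ℕ × (Fin k → ℕ)) (v : Fin d → ZMod p) : ℝ :=
  haveI : Fact p.Prime := ⟨hp⟩
  ∑ z : ZMod p × (Fin k → ZMod p), (1 : ℝ) * (quadraticChar (ZMod p) (lin p E z v + z.1 ^ n) : ℝ)

lemma trace_eq (p n : ℕ) (hp : p.Prime) (h2 : p ≠ 2) {k d : ℕ} (E : Fin d → ℕ × (Fin k → ℕ)) (m : Fin d → ℕ) (t : Fin k → ZMod p) :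
    haveI : Fact p.Prime := ⟨hp⟩
    (trace p n E m t : ℝ) = -∑ x : ZMod p, (quadraticChar (ZMod p) (fiber p n E m x t) : ℝ) := by
  have hf : Fact p.Prime := ⟨hp⟩
  have h3 : ringChar (ZMod p) ≠ 2 := by
    rw [ZMod.ringChar_zmod_n]
    exact h2
  obtain ⟨g, hg⟩ : ∃ g : Polynomial (ZMod p), g = Polynomial.X ^ n + ∑ l, Polynomial.C ((m l : ZMod p) * ∏ j, t j ^ (E l).2 j) * Polynomial.X ^ (E l).1 := ⟨_, rfl⟩
  have hev : ∀ x : ZMod p, g.eval x = fiber p n E m x t := by
    intro x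
    rw [hg]
    unfold fiber
    rw [Polynomial.eval_add, Polynomial.eval_pow, Polynomial.eval_X, Polynomial.eval_finsetSum]
    congr 1
    apply sum_congr rfl
    intro l _
    rw [Polynomial.eval_mul, Polynomial.eval_C, Polynomial.eval_pow, Polynomial.eval_X]
    ring
  have h4 := Pool.Agent.H126T.card_aff h3 g (1 : ZMod p) one_ne_zero
  have e1 : {P : ZMod p × ZMod p // 1 * P.2 ^ 2 = g.eval P.1} = {P : ZMod p × ZMod p // P.2 ^ 2 = fiber p n E m P.1 t} := by
    congr 1
    funext P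
    rw [hev, one_mul]
  rw [e1, ZMod.card, map_one, one_mul] at h4
  unfold trace
  rw [h4]
  push_cast
  rw [sub_add_cancel_left]
  congr 1
  apply sum_congr rfl
  intro x _
  rw [hev]

lemma trace_bound (p n : ℕ) (hp : p.Prime) (h2 : p ≠ 2) (hn : Odd n) {k d : ℕ} (E : Fin d → ℕ × (Fin k → ℕ)) (hE : ∀ l, (E l).1 < n)
    (m : Fin d → ℕ) (t : Fin k → ZMod p) : |(trace p n E m t : ℝ)| ≤ n * Real.sqrt p := by
  have hf : Fact p.Prime := ⟨hp⟩
  have h3 : ringChar (ZMod p) ≠ 2 := by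
    rw [ZMod.ringChar_zmod_n]
    exact h2
  obtain ⟨s, hs⟩ : ∃ s : Polynomial (ZMod p), s = ∑ l, Polynomial.C ((m l : ZMod p) * ∏ j, t j ^ (E l).2 j) * Polynomial.X ^ (E l).1 := ⟨_, rfl⟩
  obtain ⟨g, hg⟩ : ∃ g : Polynomial (ZMod p), g = Polynomial.X ^ n + s := ⟨_, rfl⟩
  have hn1 : 1 ≤ n := hn.pos
  have hsd : s.degree < n := by
    rw [hs]
    refine (Polynomial.degree_sum_le _ _).trans_lt ?_
    rw [Finset.sup_lt_iff (by exact WithBot.bot_lt_coe n)]
    intro l _
    refine (Polynomial.degree_C_mul_X_pow_le _ _).trans_lt ?_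
    exact_mod_cast hE l
  have hgd : g.natDegree = n := by
    rw [hg, add_comm]
    rw [Polynomial.natDegree_add_eq_right_of_degree_lt (by rwa [Polynomial.degree_X_pow]), Polynomial.natDegree_X_pow]
  have hev : ∀ x : ZMod p, g.eval x = fiber p n E m x t := by
    intro x
    rw [hg, hs]
    unfold fiber
    rw [Polynomial.eval_add, Polynomial.eval_pow, Polynomial.eval_X, Polynomial.eval_finsetSum]
    congr 1
    apply sum_congr rfl
    intro l _
    rw [Polynomial.eval_mul, Polynomial.eval_C, Polynomial.eval_pow, Polynomial.eval_X]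
    ring
  have h4 := Pool.Agent.H341R2.Sharp.weil_sharp h3 g (by rw [hgd]; exact hn1) (by
    intro c h hgh
    by_cases hc : c = 0
    · rw [hc] at hgh
      simp at hgh
      rw [hgh, Polynomial.natDegree_zero] at hgd
      omega
    · have h5 : g.natDegree = 2 * h.natDegree := by
        rw [hgh, Polynomial.natDegree_C_mul hc, Polynomial.natDegree_pow]
      rw [hgd] at h5
      rw [h5] at hn
      exact (Nat.not_odd_iff_even.2 (even_two_mul _)) hn)
  rw [hgd, ZMod.card] at h4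
  rw [trace_eq p n hp h2, abs_neg]
  simp only [hev] at h4
  refine h4.trans ?_
  have h5 : 0 ≤ Real.sqrt (p : ℝ) := Real.sqrt_nonneg _
  nlinarith

lemma average_eq (p n : ℕ) (hp : p.Prime) (h2 : p ≠ 2) {k d : ℕ} (E : Fin d → ℕ × (Fin k → ℕ)) (m : Fin d → ℕ) :
    average p n E m = -(cs p n hp E (fun i => (m i : ZMod p))) / (p : ℝ) ^ k := by
  have hf : Fact p.Prime := ⟨hp⟩
  unfold average
  rw [finsum_eq_sum_of_fintype, sum_congr rfl (fun t _ => trace_eq p n hp h2 E m t), sum_neg_distrib]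
  congr 2
  unfold cs
  rw [Fintype.sum_prod_type_right]
  apply sum_congr rfl
  intro t _
  apply sum_congr rfl
  intro x _
  rw [one_mul]
  unfold fiber lin
  simp only [LinearMap.coe_mk, AddHom.coe_mk]
  rw [add_comm]

lemma average_bound (p n : ℕ) (hp : p.Prime) (h2 : p ≠ 2) (hn : Odd n) {k d : ℕ} (E : Fin d → ℕ × (Fin k → ℕ)) (hE : ∀ l, (E l).1 < n)
    (m : Fin d → ℕ) : |average p n E m| ≤ n * Real.sqrt p := by
  have hf : Fact p.Prime := ⟨hp⟩
  have hp0 : (0 : ℝ) < p := by exact_mod_cast hp.pos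
  unfold average
  rw [finsum_eq_sum_of_fintype, abs_div, abs_of_pos (pow_pos hp0 k), div_le_iff₀ (pow_pos hp0 k)]
  refine (abs_sum_le_sum_abs _ _).trans ?_
  refine (sum_le_sum (fun t _ => trace_bound p n hp h2 hn E hE m t)).trans ?_
  rw [sum_const, card_univ, Fintype.card_fun, Fintype.card_fin, ZMod.card, nsmul_eq_mul]
  push_cast
  linarith

section
variable {p n k d : ℕ} [hf : Fact p.Prime] (E : Fin d → ℕ × (Fin k → ℕ))

lemma lin_single (z : ZMod p × (Fin k → ZMod p)) (l : Fin d) (c : ZMod p) :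
    lin p E z (Pi.single l c) = c * (z.1 ^ (E l).1 * ∏ j, z.2 j ^ (E l).2 j) := by
  unfold lin
  simp only [LinearMap.coe_mk, AddHom.coe_mk]
  rw [sum_eq_single l]
  · rw [Pi.single_eq_same]
  · intro l' _ hne
    rw [Pi.single_eq_of_ne hne, zero_mul]
  · intro h
    exact absurd (mem_univ l) h

lemma indep (h0 : ∃ l, E l = (0, 0)) (h1 : ∃ l, E l = (1, 0)) (ht : ∀ j, ∃ l, E l = (0, Pi.single j 1))
    (z z' : ZMod p × (Fin k → ZMod p)) (hz : z ≠ z') : ∃ w : Fin d → ZMod p, lin p E z w = 1 ∧ lin p E z' w = 0 := by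
  obtain ⟨l0, hl0⟩ := h0
  have hc : ∀ z : ZMod p × (Fin k → ZMod p), ∀ c, lin p E z (Pi.single l0 c) = c := by
    intro z c
    rw [lin_single, hl0]
    simp
  -- a separating monomial
  obtain ⟨l, hl⟩ : ∃ l, z.1 ^ (E l).1 * ∏ j, z.2 j ^ (E l).2 j ≠ z'.1 ^ (E l).1 * ∏ j, z'.2 j ^ (E l).2 j := by
    by_cases hx : z.1 = z'.1
    · obtain ⟨j, hj⟩ : ∃ j, z.2 j ≠ z'.2 j := by
        by_contra hcon
        push Not at hcon
        exact hz (Prod.ext hx (funext hcon))
      obtain ⟨l, hl⟩ := ht j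
      refine ⟨l, ?_⟩
      have e : ∀ u : Fin k → ZMod p, ∏ i, u i ^ (Pi.single j 1 : Fin k → ℕ) i = u j := by
        intro u
        rw [prod_eq_single j]
        · rw [Pi.single_eq_same, pow_one]
        · intro i _ hi
          rw [Pi.single_eq_of_ne hi, pow_zero]
        · intro h
          exact absurd (mem_univ j) h
      rw [hl]
      show z.1 ^ 0 * ∏ i, z.2 i ^ (Pi.single j 1 : Fin k → ℕ) i ≠ z'.1 ^ 0 * ∏ i, z'.2 i ^ (Pi.single j 1 : Fin k → ℕ) i
      rw [e, e, pow_zero, pow_zero, one_mul, one_mul]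
      exact hj
    · obtain ⟨l, hl⟩ := h1
      refine ⟨l, ?_⟩
      rw [hl]
      simpa using hx
  obtain ⟨α, hα⟩ : ∃ α, α = z.1 ^ (E l).1 * ∏ j, z.2 j ^ (E l).2 j := ⟨_, rfl⟩
  obtain ⟨α', hα'⟩ : ∃ α', α' = z'.1 ^ (E l).1 * ∏ j, z'.2 j ^ (E l).2 j := ⟨_, rfl⟩
  rw [← hα, ← hα'] at hl
  have hne : α - α' ≠ 0 := sub_ne_zero.2 hl
  refine ⟨Pi.single l0 (-((α - α')⁻¹ * α')) + Pi.single l ((α - α')⁻¹), ?_, ?_⟩
  · rw [map_add, hc, lin_single, ← hα]
    field_simp
    ring
  · rw [map_add, hc, lin_single, ← hα']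
    ring

end

lemma mean_average (p n : ℕ) (hp : p.Prime) (h2 : p ≠ 2) {k d : ℕ} (E : Fin d → ℕ × (Fin k → ℕ)) (h0 : ∃ l, E l = (0, 0)) (c : ℝ) :
    mean d p (fun m => c * average p n E m) = 0 := by
  have hf : Fact p.Prime := ⟨hp⟩
  have h3 : (fun m : Fin d → ℕ => c * average p n E m) = fun m : Fin d → ℕ => (fun v : Fin d → ZMod p => c * (-(cs p n hp E v) / (p : ℝ) ^ k)) (fun i => (m i : ZMod p)) := by
    funext m
    rw [average_eq p n hp h2]
  have h33 : mean d p (fun m => c * average p n E m) = (∑ v : Fin d → ZMod p, c * (-(cs p n hp E v) / (p : ℝ) ^ k)) / (p : ℝ) ^ d := by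
    rw [h3]
    exact mean_zmod d p hp (fun v => c * (-(cs p n hp E v) / (p : ℝ) ^ k))
  rw [h33, ← mul_sum, ← sum_div, sum_neg_distrib]
  have h4 : ∑ v : Fin d → ZMod p, cs p n hp E v = 0 := by
    unfold cs
    rw [sum_comm]
    apply sum_eq_zero
    intro z _
    obtain ⟨l0, hl0⟩ := h0
    have h5 := shift_zero h2 (lin p E z) (z.1 ^ n) (fun _ => (1 : ℝ)) (Pi.single l0 1) (by
      rw [lin_single, hl0]
      simp) (fun _ _ => rfl)
    rw [← h5]
    apply sum_congr rfl
    intro v _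
    ring
  rw [h4]
  simp

lemma mean_average_sq (p n : ℕ) (hp : p.Prime) (h2 : p ≠ 2) {k d : ℕ} (hk : 1 ≤ k) (E : Fin d → ℕ × (Fin k → ℕ)) (h0 : ∃ l, E l = (0, 0))
    (h1 : ∃ l, E l = (1, 0)) (ht : ∀ j, ∃ l, E l = (0, Pi.single j 1)) (c : ℝ) :
    mean d p (fun m => (c * average p n E m) ^ 2) ≤ c ^ 2 := by
  have hf : Fact p.Prime := ⟨hp⟩
  have hp0 : (0 : ℝ) < p := by exact_mod_cast hp.pos
  have hp1 : (1 : ℝ) ≤ p := by exact_mod_cast hp.one_lt.le
  have h3 : (fun m : Fin d → ℕ => (c * average p n E m) ^ 2) = fun m : Fin d → ℕ => (fun v : Fin d → ZMod p => (c / (p : ℝ) ^ k) ^ 2 * (cs p n hp E v) ^ 2) (fun i => (m i : ZMod p)) := by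
    funext m
    rw [average_eq p n hp h2]
    ring
  have h33 : mean d p (fun m => (c * average p n E m) ^ 2) = (∑ v : Fin d → ZMod p, (c / (p : ℝ) ^ k) ^ 2 * (cs p n hp E v) ^ 2) / (p : ℝ) ^ d := by
    rw [h3]
    exact mean_zmod d p hp (fun v => (c / (p : ℝ) ^ k) ^ 2 * (cs p n hp E v) ^ 2)
  rw [h33, ← mul_sum]
  have h4 := second_moment h2 (lin p E) (fun z => z.1 ^ n) (indep E h0 h1 ht) (fun _ => (1 : ℝ))
  have h5 : ∑ v : Fin d → ZMod p, (cs p n hp E v) ^ 2 ≤ (p : ℝ) ^ (k + 1) * (p : ℝ) ^ d := by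
    refine h4.trans (le_of_eq ?_)
    rw [one_pow, sum_const, card_univ, Fintype.card_prod, Fintype.card_fun, Fintype.card_fin, ZMod.card, Fintype.card_fun, Fintype.card_fin, ZMod.card]
    push_cast
    ring
  rw [div_le_iff₀ (pow_pos hp0 d)]
  have h6 : (p : ℝ) ^ (k + 1) ≤ ((p : ℝ) ^ k) ^ 2 := by
    rw [← pow_mul]
    exact pow_le_pow_right₀ hp1 (by omega)
  calc (c / (p : ℝ) ^ k) ^ 2 * ∑ v : Fin d → ZMod p, (cs p n hp E v) ^ 2
      ≤ (c / (p : ℝ) ^ k) ^ 2 * ((p : ℝ) ^ (k + 1) * (p : ℝ) ^ d) := mul_le_mul_of_nonneg_left h5 (sq_nonneg _)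
    _ ≤ (c / (p : ℝ) ^ k) ^ 2 * (((p : ℝ) ^ k) ^ 2 * (p : ℝ) ^ d) :=
        mul_le_mul_of_nonneg_left (mul_le_mul_of_nonneg_right h6 (by positivity)) (sq_nonneg _)
    _ = c ^ 2 * (p : ℝ) ^ d := by
        field_simp

lemma fiber_mod (p n : ℕ) {k d : ℕ} (E : Fin d → ℕ × (Fin k → ℕ)) (m : Fin d → ℕ) (x : ZMod p) (t : Fin k → ZMod p) :
    fiber p n E m x t = fiber p n E (fun i => m i % p) x t := by
  unfold fiber
  congr 1
  apply sum_congr rfl
  intro l _
  rw [ZMod.natCast_mod]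

lemma average_mod (p n : ℕ) {k d : ℕ} (E : Fin d → ℕ × (Fin k → ℕ)) (m : Fin d → ℕ) :
    average p n E m = average p n E (fun i => m i % p) := by
  unfold average trace
  simp only [← fiber_mod]

/-- Let `f (X, T) = X ^ n + ∑ m l X ^ i T ^ J` be the polynomial with `d` monomials `X ^ i T ^ J`, `E l = (i, J)`, `i < n`, `T = (T 1, ..., T k)`, `n` odd,
`k ≥ 1`, with the coefficients `m l`; the monomials `1`, `X`, `T 1`, ..., `T k` occur among them. Let a base `b ≥ 2`,
`δ > 0` and an integer `A ≥ 0` be given. There are `c > 0` and `y₀` such that for all integers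
`r l`, `K l`, `y` with `2 r l ≤ K l` and `y ≥ y₀` the following holds.

Let `0 ≤ N l < b ^ K l` be arbitrary integers, prescribe for every position `j` a digit `g l j` different from the digit of
`N l` in base `b`, and let `W x` be for every `x` a set of at most `x ^ A` weight functions `w` of absolute value at most `1`. If one chooses
`r l` of the `K l` positions and replaces the digits of `N l` at these positions, then
for all but at most a proportion `1 / y ^ A` of the choices the family of hyperelliptic curves `Y ^ 2 = f (X, T)` over `𝔸 ^ k` with the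
coefficients `m l` obtained has the following property: for all integers `x` with
`y ≤ x ≤ exp (c r l)` for all `l` and all `w ∈ W x` Nagao's sum, the sum of `w p · (average of a_p over the fibres) · log p` over the odd primes
`p ≤ x`, is at most `x ^ (1 / 2 + δ)` in absolute value. -/
theorem result (b n k d : ℕ) (E : Fin d → ℕ × (Fin k → ℕ)) (hb : 2 ≤ b) (hn : Odd n) (hk : 1 ≤ k) (hE : ∀ l, (E l).1 < n)
    (h0 : ∃ l, E l = (0, 0)) (h1 : ∃ l, E l = (1, 0)) (ht : ∀ j, ∃ l, E l = (0, Pi.single j 1)) (δ : ℝ) (hδ : 0 < δ) (A : ℕ) :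
    ∃ c : ℝ, 0 < c ∧ ∃ y₀ : ℕ,
    ∀ (K r : Fin d → ℕ) (y : ℕ), (∀ l, 2 * r l ≤ K l) → y₀ ≤ y →
    ∀ N : Fin d → ℕ, (∀ l, N l < b ^ K l) → ∀ g : Fin d → ℕ → ℕ, (∀ l j, g l j < b ∧ g l j ≠ digit b j (N l)) →
    ∀ W : ℕ → Finset (ℕ → ℂ), (∀ x, (W x).card ≤ x ^ A) → (∀ x, ∀ w ∈ W x, ∀ p, ‖w p‖ ≤ 1) →
      (exceptions b K r N g (fun m => ∀ x : ℕ, y ≤ x → (∀ l, (x : ℝ) ≤ Real.exp (c * r l)) → ∀ w ∈ W x,
        ‖nagao n E m w x‖ ≤ (x : ℝ) ^ (1 / 2 + δ)) : ℝ) ≤
        1 / (y : ℝ) ^ A * ∏ l, ((K l).choose (r l) : ℝ) := by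
  classical
  have hd : 1 ≤ d := by
    obtain ⟨l, _⟩ := h0
    exact Fin.pos l
  obtain ⟨c, hc, y₀, h⟩ := mz_law b d hb hd (δ / 2) (by positivity) A (A + 1)
  obtain ⟨x₁, hx₁⟩ := absorb (2 * n) (δ / 2) (by positivity) (by positivity)
  refine ⟨c, hc, y₀ + x₁ + 2, fun K r y hrK hy N hN g hg W hW1 hW2 => ?_⟩
  have h2 := h K r y hrK (by omega) N hN g hg (ℕ → ℝ)
    (fun x => (W x).image (fun w p => (w p).re) ∪ (W x).image (fun w p => (w p).im)) (by
      intro x hx
      refine (card_union_le _ _).trans ((add_le_add card_image_le card_image_le).trans ?_)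
      have := hW1 x
      rw [pow_succ]
      nlinarith [Nat.zero_le (x ^ A)])
    (fun _ w p m => w p * Real.log p * average p n E m) (by
      intro x w p m _
      show w p * Real.log p * average p n E m = w p * Real.log p * average p n E (fun i => m i % p)
      rw [← average_mod]) (fun x _ => n * Real.sqrt x * (Real.log x + 1)) (by
      intro x hx w _
      have : 0 ≤ Real.log x := Real.log_natCast_nonneg x
      positivity) ?_ ?_ ?_
    (fun m => ∀ x : ℕ, y ≤ x → (∀ l, (x : ℝ) ≤ Real.exp (c * r l)) → ∀ w ∈ W x, ‖nagao n E m w x‖ ≤ (x : ℝ) ^ (1 / 2 + δ)) ?_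
  · unfold exceptions
    exact h2
  · -- bound
    intro x hx w hw p hp m
    have hw1 : |w p| ≤ 1 := by
      rw [mem_union, mem_image, mem_image] at hw
      rcases hw with ⟨u, hu, rfl⟩ | ⟨u, hu, rfl⟩
      · exact (Complex.abs_re_le_norm _).trans (hW2 x u hu p)
      · exact (Complex.abs_im_le_norm _).trans (hW2 x u hu p)
    rw [mem_op] at hp
    have hp1 : (1 : ℝ) ≤ p := by exact_mod_cast hp.2.1.one_lt.le
    have hpx : (p : ℝ) ≤ x := by exact_mod_cast hp.1
    have hlp : 0 ≤ Real.log p := Real.log_nonneg hp1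
    have hlx : Real.log p ≤ Real.log x := Real.log_le_log (by linarith) hpx
    have hb1 := average_bound p n hp.2.1 hp.2.2 hn E hE m
    have hs : Real.sqrt p ≤ Real.sqrt x := Real.sqrt_le_sqrt hpx
    rw [abs_mul, abs_mul, abs_of_nonneg hlp]
    calc |w p| * Real.log p * |average p n E m| ≤ 1 * Real.log p * (n * Real.sqrt p) := by gcongr
      _ ≤ 1 * (Real.log x + 1) * (n * Real.sqrt x) := by
          gcongr
          linarith
      _ = n * Real.sqrt x * (Real.log x + 1) := by ring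
  · -- mean zero
    intro x hx w _ p hp
    rw [mem_op] at hp
    exact mean_average p n hp.2.1 hp.2.2 E h0 (w p * Real.log p)
  · -- variance
    intro x hx w hw
    have hlx0 : 0 ≤ Real.log x := Real.log_natCast_nonneg x
    have hone : ∀ p ∈ op x, mean d p (fun m => (w p * Real.log p * average p n E m) ^ 2) ≤ (Real.log x + 1) ^ 2 := by
      intro p hp
      have hw1 : |w p| ≤ 1 := by
        rw [mem_union, mem_image, mem_image] at hw
        rcases hw with ⟨u, hu, rfl⟩ | ⟨u, hu, rfl⟩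
        · exact (Complex.abs_re_le_norm _).trans (hW2 x u hu p)
        · exact (Complex.abs_im_le_norm _).trans (hW2 x u hu p)
      rw [mem_op] at hp
      have hp1 : (1 : ℝ) ≤ p := by exact_mod_cast hp.2.1.one_lt.le
      have hpx : (p : ℝ) ≤ x := by exact_mod_cast hp.1
      have hlp : 0 ≤ Real.log p := Real.log_nonneg hp1
      have hlx : Real.log p ≤ Real.log x := Real.log_le_log (by linarith) hpx
      refine (mean_average_sq p n hp.2.1 hp.2.2 hk E h0 h1 ht (w p * Real.log p)).trans ?_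
      rw [← sq_abs, abs_mul, abs_of_nonneg hlp]
      apply pow_le_pow_left₀ (by positivity)
      calc |w p| * Real.log p ≤ 1 * (Real.log x + 1) := by
            gcongr
            linarith
        _ = Real.log x + 1 := one_mul _
    refine (sum_le_sum hone).trans ?_
    rw [sum_const, nsmul_eq_mul]
    have hcard : ((op x).card : ℝ) ≤ x := by
      have : (op x).card ≤ (Icc 1 x).card := by
        apply card_le_card
        intro p hp
        rw [mem_op] at hp
        rw [mem_Icc]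
        exact ⟨hp.2.1.one_lt.le, hp.1⟩
      rw [Nat.card_Icc, Nat.add_sub_cancel] at this
      exact_mod_cast this
    have hn1 : (1 : ℝ) ≤ n := by exact_mod_cast hn.pos
    have hx0 : (0 : ℝ) ≤ x := Nat.cast_nonneg x
    rw [mul_pow, mul_pow, Real.sq_sqrt hx0]
    apply mul_le_mul_of_nonneg_right _ (sq_nonneg _)
    have hn2 : (1 : ℝ) ≤ (n : ℝ) ^ 2 := one_le_pow₀ hn1
    calc ((op x).card : ℝ) ≤ 1 * x := by rw [one_mul]; exact hcard
      _ ≤ (n : ℝ) ^ 2 * x := mul_le_mul_of_nonneg_right hn2 hx0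
  · -- the conclusion
    intro m hm x hyx hxr w hw
    have hx0 : (0 : ℝ) < x := by exact_mod_cast (by omega : 0 < x)
    have hre := hm x hyx hxr (fun p => (w p).re) (by
      rw [mem_union, mem_image]
      exact Or.inl ⟨w, hw, rfl⟩)
    have him := hm x hyx hxr (fun p => (w p).im) (by
      rw [mem_union, mem_image, mem_image]
      exact Or.inr ⟨w, hw, rfl⟩)
    have e1 : (nagao n E m w x).re = ∑ p ∈ op x, (w p).re * Real.log p * average p n E m := by
      unfold nagao
      rw [Complex.re_sum]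
      apply sum_congr rfl
      intro p _
      rw [Complex.re_mul_ofReal]
      ring
    have e2 : (nagao n E m w x).im = ∑ p ∈ op x, (w p).im * Real.log p * average p n E m := by
      unfold nagao
      rw [Complex.im_sum]
      apply sum_congr rfl
      intro p _
      rw [Complex.im_mul_ofReal]
      ring
    refine (Complex.norm_le_abs_re_add_abs_im _).trans ?_
    rw [e1, e2]
    refine (add_le_add hre him).trans ?_
    have h3 := hx₁ x (by omega)
    have h4 : (x : ℝ) ^ (1 / 2 + δ) = Real.sqrt x * (x : ℝ) ^ (δ / 2) * (x : ℝ) ^ (δ / 2) := by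
      rw [Real.sqrt_eq_rpow, ← Real.rpow_add hx0, ← Real.rpow_add hx0]
      congr 1
      ring
    rw [h4]
    have h5 : 0 ≤ Real.sqrt x * (x : ℝ) ^ (δ / 2) := by positivity
    calc n * Real.sqrt x * (Real.log x + 1) * (x : ℝ) ^ (δ / 2) + n * Real.sqrt x * (Real.log x + 1) * (x : ℝ) ^ (δ / 2)
        = Real.sqrt x * (x : ℝ) ^ (δ / 2) * (2 * n * (Real.log x + 1)) := by ring
      _ ≤ _ := mul_le_mul_of_nonneg_left h3 h5

end Pool.Agent.Results.MP_1a0ddd_nt.FewDigitPencils
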