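import Pool.Agent.X293.MX.St

/-!
# The Tauberian generalized Nagao conjecture for the curves `Y ^ 2 = D(X) + (w a(X) + b(X)) ^ 2`

`V` is the variety of the points `(x, y)` with `y_i ^ 2 = G_i(x)`, over the number field `K`, for
polynomials `G_i` in `k` variables such that no product of some of them is a constant times a square.
`X` is the curve `Y ^ 2 = D₀(X) ∏ (X - δ_j(x)) + (w ∏ (X - α_i(x)) + b(x, X)) ^ 2` of genus `g` over
the function field `E(V × 𝔸¹) = E(V)(w)`, for any number field `E ⊇ K`, where `D₀` is a monic
polynomial over `𝓞_K` without multiple roots, the `δ_j` are distinct functions, not roots of `D₀`, with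
`deg D₀ + r = 2 g + 1`, `b` is any polynomial of degree at most `g` with coefficients in `𝓞_K[x]`, and
the `α_i` are at most `g` distinct functions, not roots of `D = D₀ ∏ (X - δ_j)` and of `D + b ^ 2`.
Its rank over `E(V)(w)` is the number of the irreducible factors of `D` over `E`, minus one, plus the
number of the `i` such that `(D + b ^ 2)(α_i)` is a square in `E(V)`.  It takes values up to `3 g`.

`b_v = -𝔄_v` is minus the fibre average of the traces of the Frobenius on `H¹` at the prime `v` of `E`,
over the points `(x, y, w)` of the base with `y_i ≠ 0` and smooth fibre (the other points of a projective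
model of the base change `𝔄_v` by `O(q_v^{-1/2})`, which does not affect the limit).

`X` has a rational point at infinity, and `P_X = Pic⁰ X` is the class group of its affine coordinate
ring.  It has no torsion over any `E`, so the `K(𝒴)/K`-trace of `P_X` is zero, and `𝔄* = 𝔄`.
-/

set_option autoImplicit false
set_option maxHeartbeats 400000

namespace Pool.Agent.Results.MP_1a0ddd_nt.MixedPencils

open Polynomial NumberField IsDedekindDomain Filter Topology Pool.Agent.X293.MX
open Pool.Agent.W353.FB (average)

theorem result (K : Type) [Field K] [NumberField K] :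
    (∀ (k l r s g : ℕ) (G : Fin l → MvPolynomial (Fin k) (𝓞 K)) (D₀ : (𝓞 K)[X])
      (δ : Fin r → MvPolynomial (Fin k) (𝓞 K)) (α : Fin s → MvPolynomial (Fin k) (𝓞 K))
      (b : (MvPolynomial (Fin k) (𝓞 K))[X]), IsMixPencil g G D₀ δ α b →
      ∀ (E : IntermediateField K (AlgebraicClosure K)) [NumberField E],
      -- the algebraic side: the rank of `Pic⁰ X` over `E(V)(w)`
      GenericRank g G D₀ δ α b E (mixRank G D₀ δ α b E) ∧
      -- the analytic side: the limit of the averages of the `b_v = -𝔄_v`, with the weights `log q_v`
      ∀ R : Finset (HeightOneSpectrum (𝓞 E)),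
        Tendsto (average R fun v => -averageAt G D₀ δ α b E v) atTop
          (𝓝 (mixRank G D₀ δ α b E : ℝ))) ∧
    -- families of rank `3 g` over all number fields
    ∀ g : ℕ, HasFamily K g (3 * g) :=
  ⟨fun _ _ _ _ _ _ _ _ _ _ h E _ => ⟨genericRank h E, fun R => mix_natural h E R⟩, hasFamily⟩

end Pool.Agent.Results.MP_1a0ddd_nt.MixedPencils
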