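import Pool.Agent.X35.GV.Twist
import Pool.Agent.X35.GM.Seq2

/-!
# Nagao's sums of the twists `(g(T) - n) Y² = h(X, T)` of ALL families of hyperelliptic curves, for ALL `n` near `± α v_i`, outside a set of
`α` of small dimension
-/

set_option autoImplicit false

namespace Pool.Agent.Results.MP_1a0ddd_nt.PencilsNearSequences

open Finset Polynomial

/-- The polynomial `h(X, t)` over `𝔽_p`, for `h(X, T) ∈ ℤ[T][X]` and `t ∈ 𝔽_p`. -/
noncomputable def fibre (p : ℕ) (h : ℤ[X][X]) (t : ZMod p) : (ZMod p)[X] := h.map (eval₂RingHom (Int.castRingHom (ZMod p)) t)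

open Classical in
/-- The trace of Frobenius on `H¹` of the fibre `(g(t) - n) Y² = h(X, t)` at `t ∈ 𝔽_p`: `p` minus the number of its affine points (there is one
point at infinity), and `0` at the points with `g(t) = n`. -/
noncomputable def trace (p : ℕ) (g : ℤ[X]) (h : ℤ[X][X]) (n : ℤ) (t : ZMod p) : ℤ :=
  if (g.map (Int.castRingHom (ZMod p))).eval t = (n : ZMod p) then 0 else
    p - Nat.card {P : ZMod p × ZMod p // ((g.map (Int.castRingHom (ZMod p))).eval t - (n : ZMod p)) * P.2 ^ 2 = (fibre p h t).eval P.1}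

/-- The fibre average `𝔄_p`, the sum of the traces over the points `t = 0, ..., p - 1` of the base, divided by `p`. -/
noncomputable def average (p : ℕ) (g : ℤ[X]) (h : ℤ[X][X]) (n : ℤ) : ℝ := (∑ t ∈ range p, (trace p g h n (t : ZMod p) : ℝ)) / p

/-- Nagao's sum `Σ_x`, the sum of `𝔄_p log p` over the odd primes `p ≤ x`. -/
noncomputable def nagao (g : ℤ[X]) (h : ℤ[X][X]) (n : ℤ) (x : ℕ) : ℝ :=
  ∑ p ∈ (range (x + 1)).filter (fun p => p.Prime ∧ p ≠ 2), average p g h n * Real.log p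

lemma average_eq (p : ℕ) (hp : p.Prime) (h2 : p ≠ 2) (g : ℤ[X]) (h : ℤ[X][X]) (n : ℤ) : haveI := Fact.mk hp
    average p g h n = Pool.Agent.X35.GV.tw (fun t : ZMod p => (g.map (Int.castRingHom (ZMod p))).eval t)
      (fun t => (Pool.Agent.X35.GV.tr0 h t : ℝ)) (n : ZMod p) / p := by
  classical
  have hF := Fact.mk hp
  unfold average Pool.Agent.X35.GV.tw
  congr 1
  rw [show ∑ t ∈ range p, (trace p g h n (t : ZMod p) : ℝ) = ∑ t : ZMod p, (trace p g h n t : ℝ) from
    sum_bij' (fun i _ => (i : ZMod p)) (fun x _ => x.val) (fun i _ => mem_univ _)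
      (fun x _ => mem_range.2 (ZMod.val_lt x)) (fun i hi => ZMod.val_natCast_of_lt (mem_range.1 hi))
      (fun x _ => ZMod.natCast_zmod_val x) (fun i _ => rfl)]
  refine sum_congr rfl fun t _ => ?_
  exact Pool.Agent.X35.GV.trt_eq h2 g h (n : ZMod p) t

/-- Let `δ > 0`. There are `κ > 0` and `C > 0` such that for all reals `v_i ≥ 1` with `∑ v_i ^ (-u) < ∞` for all `u > τ` (`τ ≥ 0`; for
example `v_i = 2 ^ i`, `τ = 0`) and all `θ < 1` there is a set `E` of reals of Hausdorff dimension at most `(1 - κ + τ) / (1 - θ)` with the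
following property. For every real `α > 0` outside `E`, ALL monic `g ∈ ℤ[T]` of positive degree, ALL `h ∈ ℤ[T][X]`, monic of odd degree in `X`,
all `i ≥ i₀(α, g, h)`, ALL integers `n` with `||n| - α v_i| ≤ v_i ^ θ` and ALL integers `x` with `(log |n|) ^ C ≤ x ≤ |n| ^ κ`, Nagao's sum of the
family `(g(T) - n) Y² = h(X, T)` over the `T`-line is at most `deg h (deg g) ^ (1 / 2) x ^ (1 / 2 + δ) log x` in absolute value. -/
theorem result (δ : ℝ) (hδ : 0 < δ) :
    ∃ κ C : ℝ, 0 < κ ∧ 0 < C ∧ ∀ (v : ℕ → ℝ) (τ θ : ℝ), (∀ i, 1 ≤ v i) → 0 ≤ τ → θ < 1 →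
      (∀ u : ℝ, τ < u → Summable (fun i => v i ^ (-u))) →
      ∃ E : Set ℝ, dimH E ≤ ENNReal.ofReal ((1 - κ + τ) / (1 - θ)) ∧
        ∀ α : ℝ, 0 < α → α ∉ E → ∀ (g : ℤ[X]) (h : ℤ[X][X]), g.Monic → 1 ≤ g.natDegree → h.Monic → Odd h.natDegree →
          ∃ i₀ : ℕ, ∀ i : ℕ, i₀ ≤ i → ∀ n : ℤ, |(|(n : ℝ)|) - α * v i| ≤ v i ^ θ →
            ∀ x : ℕ, Real.log |(n : ℝ)| ^ C ≤ x → (x : ℝ) ≤ |(n : ℝ)| ^ κ →
              |nagao g h n x| ≤ h.natDegree * √(g.natDegree) * (x : ℝ) ^ (1 / 2 + δ) * Real.log x := by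
  classical
  obtain ⟨κ, hκ, hκ1, H⟩ := Pool.Agent.X35.GV.lawWinF δ 0 1 hδ le_rfl
  refine ⟨κ, 2 / δ, hκ, by positivity, fun v τ θ hv1 hτ hθ hv => ?_⟩
  haveI := Pool.Agent.X35.GM.countable_int_poly
  have hcp : Countable ℤ[X][X] := by
    rw [← Cardinal.mk_le_aleph0_iff]
    exact Polynomial.cardinalMk_le_max.trans (max_le Cardinal.mk_le_aleph0 le_rfl)
  obtain ⟨F, hF⟩ : ∃ F : ({g : ℤ[X] // g.Monic ∧ 1 ≤ g.natDegree} × {h : ℤ[X][X] // h.Monic ∧ Odd h.natDegree}) → ℕ → Unit → ℕ → ℤ → ℝ,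
    F = fun (c : {g : ℤ[X] // g.Monic ∧ 1 ≤ g.natDegree} × {h : ℤ[X][X] // h.Monic ∧ Odd h.natDegree}) (x : ℕ) (_ : Unit) (p : ℕ) (n : ℤ) =>
      average p c.1.1 c.2.1 n * Real.log p / (c.2.1.natDegree * (√(x : ℝ) * Real.log x)) := ⟨_, rfl⟩
  have hmem : ∀ (x : ℕ) (p : ℕ), p ∈ (range (x + 1)).filter (fun p => p.Prime ∧ p ≠ 2) → p.Prime ∧ p ≠ 2 ∧ p ≤ x := by
    intro x p hp
    rw [mem_filter, mem_range] at hp
    exact ⟨hp.2.1, hp.2.2, by omega⟩
  have hlog : ∀ x p : ℕ, p.Prime → p ≤ x → 0 < Real.log x ∧ Real.log p ≤ Real.log x ∧ 0 < Real.log p ∧ (0 : ℝ) < x := by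
    intro x p hp hpx
    have h1 : (1 : ℝ) < p := by exact_mod_cast hp.one_lt
    have h2 : (p : ℝ) ≤ x := by exact_mod_cast hpx
    exact ⟨Real.log_pos (by linarith), Real.log_le_log (by linarith) h2, Real.log_pos h1, by linarith⟩
  obtain ⟨E, hE1, hE2⟩ := H v τ θ hv1 hτ hθ hv
    ({g : ℤ[X] // g.Monic ∧ 1 ≤ g.natDegree} × {h : ℤ[X][X] // h.Monic ∧ Odd h.natDegree}) Unit (fun _ _ => {()})
    (fun c x hx => by rw [card_singleton, Real.rpow_zero, Nat.cast_one]) ℕ
    (fun _ x _ => (range (x + 1)).filter (fun p => p.Prime ∧ p ≠ 2)) (fun _ _ p => p)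
    (by
      intro c x l _ p hp
      obtain ⟨h1, -, h3⟩ := hmem x p hp
      exact ⟨h1.two_le, by rw [pow_one]; exact h3⟩)
    (by
      intro c x l _ p hp p' hp' hne
      exact (Nat.coprime_primes (hmem x p hp).1 (hmem x p' hp').1).2 hne)
    F (fun c _ _ => c.1.1.natDegree)
    (by
      intro c x l _ p hp m m' h
      obtain ⟨h1, h2, h3⟩ := hmem x p hp
      have h4 : ((m : ℤ) : ZMod p) = (m' : ZMod p) := (ZMod.intCast_eq_intCast_iff m m' p).2 h
      rw [hF]
      show average p c.1.1 c.2.1 m * Real.log p / _ = average p c.1.1 c.2.1 m' * Real.log p / _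
      rw [average_eq p h1 h2, average_eq p h1 h2, h4])
    (by
      intro c x l _ p hp m
      obtain ⟨h1, h2, h3⟩ := hmem x p hp
      obtain ⟨l1, l2, l3, l4⟩ := hlog x p h1 h3
      haveI := Fact.mk h1
      have hp0 : (0 : ℝ) < p := by exact_mod_cast h1.pos
      have hD : (0 : ℝ) < c.2.1.natDegree := by exact_mod_cast c.2.2.2.pos
      have h5 := Pool.Agent.X35.GV.tw_abs (fun t : ZMod p => (c.1.1.map (Int.castRingHom (ZMod p))).eval t)
        (fun t => (Pool.Agent.X35.GV.tr0 c.2.1 t : ℝ)) (c.2.1.natDegree * √p)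
        (fun t => Pool.Agent.X35.GV.tr0_bound h2 c.2.1 c.2.2.1 c.2.2.2 t) (m : ZMod p)
      rw [hF]
      show |average p c.1.1 c.2.1 m * Real.log p / (c.2.1.natDegree * (√x * Real.log x))| ≤ 1
      rw [average_eq p h1 h2, abs_div, abs_mul, abs_div, abs_of_pos hp0, abs_of_pos l3,
        abs_of_pos (by positivity : (0 : ℝ) < c.2.1.natDegree * (√x * Real.log x)), div_le_one (by positivity), div_mul_eq_mul_div,
        div_le_iff₀ hp0]
      have h6 : √(p : ℝ) ≤ √(x : ℝ) := Real.sqrt_le_sqrt (by exact_mod_cast h3)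
      calc |Pool.Agent.X35.GV.tw _ _ _| * Real.log p ≤ (p * (c.2.1.natDegree * √p)) * Real.log p := mul_le_mul_of_nonneg_right h5 l3.le
        _ ≤ (p * (c.2.1.natDegree * √x)) * Real.log x := by gcongr
        _ = _ := by ring)
    (by
      intro c x l _ p hp
      obtain ⟨h1, h2, h3⟩ := hmem x p hp
      haveI := Fact.mk h1
      have h5 := Pool.Agent.X35.GV.avg_zmod (p := p) (F c x l p) (fun n => Pool.Agent.X35.GV.tw
        (fun t : ZMod p => (c.1.1.map (Int.castRingHom (ZMod p))).eval t)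
        (fun t => (Pool.Agent.X35.GV.tr0 c.2.1 t : ℝ)) n * (1 / p * Real.log p / (c.2.1.natDegree * (√x * Real.log x)))) (by
        intro n
        rw [hF]
        show average p c.1.1 c.2.1 n * Real.log p / (c.2.1.natDegree * (√x * Real.log x)) = _
        rw [average_eq p h1 h2]
        ring)
      rw [h5, ← sum_mul, Pool.Agent.X35.GV.tw_mean h2, zero_mul, zero_div])
    (by
      intro c x l _
      have hg1 : (1 : ℝ) ≤ c.1.1.natDegree := by exact_mod_cast c.1.2.2
      refine ⟨hg1, ?_⟩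
      rcases Nat.eq_zero_or_pos x with hx0 | hx0
      · subst hx0
        rw [sum_eq_zero]
        · linarith
        · intro p hp
          obtain ⟨h1, h2, h3⟩ := hmem 0 p hp
          have := h1.pos
          omega
      have hxr : (0 : ℝ) < x := by exact_mod_cast hx0
      have hone : ∀ p ∈ (range (x + 1)).filter (fun p => p.Prime ∧ p ≠ 2), Pool.Agent.X35.GV.avg p (fun m => F c x l p m ^ 2) ≤
          (c.1.1.natDegree : ℝ) / x := by
        intro p hp
        obtain ⟨h1, h2, h3⟩ := hmem x p hp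
        obtain ⟨l1, l2, l3, l4⟩ := hlog x p h1 h3
        haveI := Fact.mk h1
        have hp0 : (0 : ℝ) < p := by exact_mod_cast h1.pos
        have hD : (0 : ℝ) < c.2.1.natDegree := by exact_mod_cast c.2.2.2.pos
        have h5 := Pool.Agent.X35.GV.avg_zmod (p := p) (fun m => F c x l p m ^ 2) (fun n => Pool.Agent.X35.GV.tw
          (fun t : ZMod p => (c.1.1.map (Int.castRingHom (ZMod p))).eval t)
          (fun t => (Pool.Agent.X35.GV.tr0 c.2.1 t : ℝ)) n ^ 2 * (1 / p * Real.log p / (c.2.1.natDegree * (√x * Real.log x))) ^ 2) (by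
          intro n
          rw [hF]
          show (average p c.1.1 c.2.1 n * Real.log p / (c.2.1.natDegree * (√x * Real.log x))) ^ 2 = _
          rw [average_eq p h1 h2]
          ring)
        have h6 := Pool.Agent.X35.GV.tw_sq h2 (fun t : ZMod p => (c.1.1.map (Int.castRingHom (ZMod p))).eval t) c.1.1.natDegree
          (Pool.Agent.X35.GV.fibre_card c.1.1 c.1.2.1 c.1.2.2)
          (fun t => (Pool.Agent.X35.GV.tr0 c.2.1 t : ℝ)) (c.2.1.natDegree * √p)
          (fun t => Pool.Agent.X35.GV.tr0_bound h2 c.2.1 c.2.2.1 c.2.2.2 t)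
        rw [mul_pow, Real.sq_sqrt hp0.le] at h6
        rw [h5, ← sum_mul]
        have h7 : (1 / p * Real.log p / (c.2.1.natDegree * (√x * Real.log x))) ^ 2 ≤ 1 / ((p : ℝ) ^ 2 * ((c.2.1.natDegree : ℝ) ^ 2 * x)) := by
          have h8 : (1 / p * Real.log p / (c.2.1.natDegree * (√x * Real.log x))) ^ 2 =
              (Real.log p / Real.log x) ^ 2 * (1 / ((p : ℝ) ^ 2 * ((c.2.1.natDegree : ℝ) ^ 2 * x))) := by
            have h9 : √(x : ℝ) ^ 2 = x := Real.sq_sqrt hxr.le
            have h10 : (1 / p * Real.log p / (c.2.1.natDegree * (√x * Real.log x))) ^ 2 =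
              (Real.log p / Real.log x) ^ 2 * (1 / ((p : ℝ) ^ 2 * ((c.2.1.natDegree : ℝ) ^ 2 * √(x : ℝ) ^ 2))) := by
              have hs : √(x : ℝ) ≠ 0 := (Real.sqrt_pos.2 hxr).ne'
              field_simp
            rw [h10, h9]
          rw [h8]
          have h11 : (Real.log p / Real.log x) ^ 2 ≤ 1 := by
            apply pow_le_one₀ (by positivity)
            rw [div_le_one l1]
            exact l2
          have h12 : (0 : ℝ) ≤ 1 / ((p : ℝ) ^ 2 * ((c.2.1.natDegree : ℝ) ^ 2 * x)) := by positivity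
          nlinarith
        have h13 : (0 : ℝ) ≤ ∑ n : ZMod p, Pool.Agent.X35.GV.tw (fun t : ZMod p => (c.1.1.map (Int.castRingHom (ZMod p))).eval t)
          (fun t => (Pool.Agent.X35.GV.tr0 c.2.1 t : ℝ)) n ^ 2 := sum_nonneg fun n _ => sq_nonneg _
        rw [div_le_iff₀ hp0]
        calc _ ≤ (c.1.1.natDegree * (p : ℝ) ^ 2 * ((c.2.1.natDegree : ℝ) ^ 2 * p)) * (1 / ((p : ℝ) ^ 2 * ((c.2.1.natDegree : ℝ) ^ 2 * x))) :=
              mul_le_mul h6 h7 (by positivity) (by positivity)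
          _ = _ := by field_simp
      calc _ ≤ ∑ _p ∈ (range (x + 1)).filter (fun p => p.Prime ∧ p ≠ 2), (c.1.1.natDegree : ℝ) / x := sum_le_sum hone
        _ = (((range (x + 1)).filter (fun p => p.Prime ∧ p ≠ 2)).card : ℝ) * ((c.1.1.natDegree : ℝ) / x) := by
            rw [sum_const, nsmul_eq_mul]
        _ ≤ (x : ℝ) * ((c.1.1.natDegree : ℝ) / x) := by
            apply mul_le_mul_of_nonneg_right _ (by positivity)
            have h1 : (range (x + 1)).filter (fun p => p.Prime ∧ p ≠ 2) ⊆ Icc 1 x := by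
              intro p hp
              obtain ⟨h1, h2, h3⟩ := hmem x p hp
              rw [mem_Icc]
              exact ⟨h1.one_lt.le, h3⟩
            have h2 := card_le_card h1
            rw [Nat.card_Icc, Nat.add_sub_cancel] at h2
            exact_mod_cast h2
        _ = c.1.1.natDegree := by field_simp)
  refine ⟨E, hE1, fun α hα hαE g h hg hg1 hh hh1 => ?_⟩
  obtain ⟨i₀, hi₀⟩ := hE2 α hα hαE (⟨g, hg, hg1⟩, ⟨h, hh, hh1⟩)
  refine ⟨i₀, fun i hi n hn x hx1 hx2 => ?_⟩
  have h1 := hi₀ i hi n hn x hx1 hx2 () (mem_singleton_self _)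
  rw [hF] at h1
  have h2 : ∑ p ∈ (range (x + 1)).filter (fun p => p.Prime ∧ p ≠ 2),
      average p g h n * Real.log p / (h.natDegree * (√x * Real.log x)) = nagao g h n x / (h.natDegree * (√x * Real.log x)) := by
    unfold nagao
    rw [sum_div]
  have h3 : |nagao g h n x / (h.natDegree * (√x * Real.log x))| ≤ √(g.natDegree) * (x : ℝ) ^ δ := by
    rw [← h2]
    exact h1
  rcases lt_or_ge x 3 with hx | hx
  · have h4 : nagao g h n x = 0 := by
      unfold nagao
      apply sum_eq_zero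
      intro p hp
      obtain ⟨e1, e2, e3⟩ := hmem x p hp
      have := e1.two_le
      omega
    rw [h4, abs_zero]
    have := Real.log_natCast_nonneg x
    positivity
  · have hxr : (3 : ℝ) ≤ x := by exact_mod_cast hx
    have hx0 : (0 : ℝ) < x := by linarith
    have hl : 0 < Real.log x := Real.log_pos (by linarith)
    have hD : (0 : ℝ) < h.natDegree := by exact_mod_cast hh1.pos
    have hs : 0 < √(x : ℝ) := Real.sqrt_pos.2 hx0
    rw [abs_div, abs_of_pos (by positivity : (0 : ℝ) < h.natDegree * (√x * Real.log x)), div_le_iff₀ (by positivity)] at h3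
    refine h3.trans (le_of_eq ?_)
    rw [Real.rpow_add hx0, ← Real.sqrt_eq_rpow]
    ring

end Pool.Agent.Results.MP_1a0ddd_nt.PencilsNearSequences
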